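import Mathlib

/-!
Box kernel and the coefficient formula for power series on a circle.
-/

set_option autoImplicit false

open Finset

namespace Pool.Agent.H61TT

/-- the box kernel `∑_{j < L} e^{-i j φ}` -/
noncomputable def ker (L : ℕ) (φ : ℝ) : ℂ :=
  ∑ j ∈ range L, Complex.exp (-(j : ℂ) * φ * Complex.I)

theorem norm_exp_neg (x φ : ℝ) : ‖Complex.exp (-(x : ℂ) * φ * Complex.I)‖ = 1 := by
  have : (-(x : ℂ) * φ * Complex.I) = ((-(x * φ) : ℝ) : ℂ) * Complex.I := by push_cast; ring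
  rw [this, Complex.norm_exp_ofReal_mul_I]

theorem ker_le (L : ℕ) (φ : ℝ) : ‖ker L φ‖ ≤ L := by
  unfold ker
  refine (norm_sum_le _ _).trans ?_
  have : ∀ j ∈ range L, ‖Complex.exp (-(j : ℂ) * φ * Complex.I)‖ ≤ 1 := fun j _ => by
    have := norm_exp_neg (j : ℝ) φ
    simp only [Complex.ofReal_natCast] at this
    exact this.le
  refine (sum_le_sum this).trans ?_
  simp

theorem ker_mul (L : ℕ) (φ : ℝ) :
    (1 - Complex.exp (-(φ : ℂ) * Complex.I)) * ker L φ = 1 - Complex.exp (-(L : ℂ) * φ * Complex.I) := by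
  unfold ker
  have h : ∀ j : ℕ, Complex.exp (-(j : ℂ) * φ * Complex.I) = Complex.exp (-(φ : ℂ) * Complex.I) ^ j := by
    intro j
    rw [← Complex.exp_nat_mul]
    congr 1
    ring
  simp_rw [h]
  have := mul_neg_geom_sum (Complex.exp (-(φ : ℂ) * Complex.I)) L
  exact this

theorem one_sub_exp_ge {φ : ℝ} (hφ : |φ| ≤ Real.pi) :
    2 / Real.pi * |φ| ≤ ‖1 - Complex.exp (-(φ : ℂ) * Complex.I)‖ := by
  have e : ‖1 - Complex.exp (-(φ : ℂ) * Complex.I)‖ ^ 2 = (2 * Real.sin (|φ| / 2)) ^ 2 := by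
    have h1 : (-(φ : ℂ) * Complex.I) = ((-φ : ℝ) : ℂ) * Complex.I := by push_cast; ring
    rw [h1, ← Complex.normSq_eq_norm_sq, Complex.exp_mul_I, ← Complex.ofReal_cos, ← Complex.ofReal_sin]
    rw [Complex.normSq_apply]
    simp only [Complex.sub_re, Complex.one_re, Complex.add_re, Complex.ofReal_re, Complex.mul_re,
      Complex.I_re, Complex.ofReal_im, Complex.I_im, Complex.sub_im, Complex.one_im, Complex.add_im,
      Complex.mul_im]
    have h2 : Real.sin (|φ| / 2) ^ 2 = Real.sin (φ / 2) ^ 2 := by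
      rcases abs_choice φ with h | h <;> rw [h]
      rw [neg_div, Real.sin_neg, neg_sq]
    have h3 : Real.cos φ = 1 - 2 * Real.sin (φ / 2) ^ 2 := by
      have := Real.cos_two_mul (φ / 2)
      rw [show 2 * (φ / 2) = φ by ring] at this
      rw [this]
      have := Real.sin_sq_add_cos_sq (φ / 2)
      linarith
    have h4 := Real.sin_sq_add_cos_sq φ
    rw [Real.cos_neg, Real.sin_neg]
    have : (2 * Real.sin (|φ| / 2)) ^ 2 = 4 * Real.sin (φ / 2) ^ 2 := by rw [mul_pow, h2]; ring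
    rw [this]
    nlinarith
  have h5 : 2 / Real.pi * |φ| ≤ 2 * Real.sin (|φ| / 2) := by
    have := Real.mul_le_sin (x := |φ| / 2) (by positivity) (by linarith)
    calc 2 / Real.pi * |φ| = 2 * (2 / Real.pi * (|φ| / 2)) := by ring
      _ ≤ _ := by linarith
  refine h5.trans ?_
  exact le_of_sq_le_sq e.ge (norm_nonneg _)
where
  le_of_sq_le_sq {a b : ℝ} (h : a ^ 2 ≤ b ^ 2) (hb : 0 ≤ b) : a ≤ b := by
    nlinarith [abs_le_of_sq_le_sq' h hb]

theorem ker_bound {L : ℕ} {φ : ℝ} (hφ : |φ| ≤ Real.pi) :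
    ‖ker L φ‖ * (1 + L * |φ|) ≤ (1 + Real.pi) * L := by
  have h1 := ker_le L φ
  have h2 : ‖ker L φ‖ * |φ| ≤ Real.pi := by
    have h3 := congrArg norm (ker_mul L φ)
    rw [norm_mul] at h3
    have h4 := one_sub_exp_ge hφ
    have h5 : ‖1 - Complex.exp (-(L : ℂ) * φ * Complex.I)‖ ≤ 2 := by
      refine (norm_sub_le _ _).trans ?_
      have := norm_exp_neg (L : ℝ) φ
      simp only [Complex.ofReal_natCast] at this
      rw [this]
      norm_num
    have hpi := Real.pi_pos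
    have h6 : 2 / Real.pi * |φ| * ‖ker L φ‖ ≤ 2 := by
      refine le_trans ?_ (h3.le.trans h5)
      exact mul_le_mul_of_nonneg_right h4 (norm_nonneg _)
    have h7 : 2 / Real.pi * |φ| * ‖ker L φ‖ = 2 / Real.pi * (‖ker L φ‖ * |φ|) := by ring
    rw [h7, div_mul_eq_mul_div, div_le_iff₀ hpi] at h6
    linarith
  have hL : (0 : ℝ) ≤ L := Nat.cast_nonneg L
  nlinarith [mul_le_mul_of_nonneg_left h2 hL]

theorem integral_exp (n m : ℕ) :
    ∫ φ in (-Real.pi)..Real.pi, Complex.exp ((n : ℂ) * φ * Complex.I) *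
      Complex.exp (-(m : ℂ) * φ * Complex.I) = if n = m then 2 * (Real.pi : ℂ) else 0 := by
  have e : ∀ φ : ℝ, Complex.exp ((n : ℂ) * φ * Complex.I) * Complex.exp (-(m : ℂ) * φ * Complex.I) =
      Complex.exp ((((n : ℂ) - m) * Complex.I) * φ) := fun φ => by
    rw [← Complex.exp_add]; congr 1; ring
  simp_rw [e]
  split_ifs with h
  · subst h
    simp
    ring
  · have hc : ((n : ℂ) - m) * Complex.I ≠ 0 := by
      refine mul_ne_zero (sub_ne_zero.2 (by exact_mod_cast h)) Complex.I_ne_zero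
    rw [integral_exp_mul_complex hc]
    have : Complex.exp (((n : ℂ) - m) * Complex.I * (Real.pi : ℝ)) =
        Complex.exp (((n : ℂ) - m) * Complex.I * ((-Real.pi : ℝ) : ℂ)) := by
      rw [Complex.exp_eq_exp_iff_exists_int]
      refine ⟨(n : ℤ) - m, ?_⟩
      push_cast
      ring
    rw [this, sub_self, zero_div]

theorem coeff_one (d : ℕ → ℂ) (r : ℝ) (hr : 0 ≤ r) (hs : Summable fun n => ‖d n‖ * r ^ n) (m : ℕ) :
    ∫ φ in (-Real.pi)..Real.pi, (∑' n, d n * ((r : ℂ) * Complex.exp (φ * Complex.I)) ^ n) *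
      Complex.exp (-(m : ℂ) * φ * Complex.I) = 2 * Real.pi * (d m * (r : ℂ) ^ m) := by
  set F : ℕ → ℝ → ℂ := fun n φ => d n * (r : ℂ) ^ n * (Complex.exp ((n : ℂ) * φ * Complex.I) *
      Complex.exp (-(m : ℂ) * φ * Complex.I)) with hF
  have hFc : ∀ n, Continuous (F n) := fun n => by
    simp only [hF]
    fun_prop
  have hFn : ∀ n φ, ‖F n φ‖ ≤ ‖d n‖ * r ^ n := fun n φ => by
    simp only [hF, norm_mul, norm_pow, Complex.norm_real, Real.norm_eq_abs, abs_of_nonneg hr]
    have h1 := norm_exp_neg (m : ℝ) φ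
    simp only [Complex.ofReal_natCast] at h1
    have h2 : ‖Complex.exp ((n : ℂ) * φ * Complex.I)‖ = 1 := by
      have : ((n : ℂ) * φ * Complex.I) = (((n : ℝ) * φ : ℝ) : ℂ) * Complex.I := by push_cast; ring
      rw [this, Complex.norm_exp_ofReal_mul_I]
    rw [h1, h2]
    simp
  have key : HasSum (fun n => ∫ φ in (-Real.pi)..Real.pi, F n φ)
      (∫ φ in (-Real.pi)..Real.pi, ∑' n, F n φ) := by
    refine intervalIntegral.hasSum_integral_of_dominated_convergence
      (fun n _ => ‖d n‖ * r ^ n) (fun n => (hFc n).aestronglyMeasurable) ?_ ?_ ?_ ?_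
    · exact fun n => Filter.Eventually.of_forall fun φ _ => hFn n φ
    · exact Filter.Eventually.of_forall fun φ _ => hs
    · exact continuous_const.intervalIntegrable _ _
    · exact Filter.Eventually.of_forall fun φ _ =>
        (Summable.of_norm_bounded hs (fun n => hFn n φ)).hasSum
  have e1 : ∀ φ : ℝ, (∑' n, d n * ((r : ℂ) * Complex.exp (φ * Complex.I)) ^ n) *
      Complex.exp (-(m : ℂ) * φ * Complex.I) = ∑' n, F n φ := fun φ => by
    rw [← tsum_mul_right]
    refine tsum_congr fun n => ?_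
    simp only [hF]
    rw [mul_pow, ← Complex.exp_nat_mul]
    rw [show (n : ℂ) * ((φ : ℂ) * Complex.I) = (n : ℂ) * φ * Complex.I by ring]
    ring
  simp_rw [e1]
  rw [← key.tsum_eq, tsum_eq_single m]
  · simp only [hF]
    rw [intervalIntegral.integral_const_mul, integral_exp, if_pos rfl]
    ring
  · intro n hn
    simp only [hF]
    rw [intervalIntegral.integral_const_mul, integral_exp, if_neg hn, mul_zero]

theorem ker_pow (L s : ℕ) (φ : ℝ) : ker L φ ^ s =
    ∑ j : Fin s → Fin L, Complex.exp (-((∑ i, (j i : ℕ) : ℕ) : ℂ) * φ * Complex.I) := by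
  have h : ker L φ = ∑ j : Fin L, Complex.exp (-((j : ℕ) : ℂ) * φ * Complex.I) := by
    unfold ker
    rw [Finset.sum_range]
  rw [h, ← Fin.prod_const, Finset.prod_univ_sum]
  simp only [Fintype.piFinset_univ]
  refine Finset.sum_congr rfl fun j _ => ?_
  rw [← Complex.exp_sum]
  congr 1
  push_cast
  rw [← Finset.sum_mul, ← Finset.sum_mul, Finset.sum_neg_distrib]

theorem coeff_formula (d : ℕ → ℂ) (r : ℝ) (hr : 0 ≤ r) (hs : Summable fun n => ‖d n‖ * r ^ n)
    (N L s : ℕ) :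
    ∫ φ in (-Real.pi)..Real.pi, (∑' n, d n * ((r : ℂ) * Complex.exp (φ * Complex.I)) ^ n) *
      Complex.exp (-(N : ℂ) * φ * Complex.I) * ker L φ ^ s =
    2 * Real.pi * ∑ j : Fin s → Fin L,
      d (N + ∑ i, (j i : ℕ)) * (r : ℂ) ^ (N + ∑ i, (j i : ℕ)) := by
  have hD : Continuous fun φ : ℝ => ∑' n, d n * ((r : ℂ) * Complex.exp (φ * Complex.I)) ^ n := by
    refine continuous_tsum (fun n => by fun_prop) hs fun n φ => ?_
    rw [norm_mul, norm_pow, norm_mul, Complex.norm_exp_ofReal_mul_I, Complex.norm_real,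
      Real.norm_eq_abs, abs_of_nonneg hr, mul_one]
  have e : ∀ φ : ℝ, (∑' n, d n * ((r : ℂ) * Complex.exp (φ * Complex.I)) ^ n) *
      Complex.exp (-(N : ℂ) * φ * Complex.I) * ker L φ ^ s =
      ∑ j : Fin s → Fin L, (∑' n, d n * ((r : ℂ) * Complex.exp (φ * Complex.I)) ^ n) *
        Complex.exp (-((N + ∑ i, (j i : ℕ) : ℕ) : ℂ) * φ * Complex.I) := fun φ => by
    rw [ker_pow, Finset.mul_sum]
    refine Finset.sum_congr rfl fun j _ => ?_
    rw [mul_assoc, ← Complex.exp_add]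
    congr 2
    push_cast
    ring
  simp_rw [e]
  rw [intervalIntegral.integral_finsetSum]
  · rw [Finset.mul_sum]
    exact Finset.sum_congr rfl fun j _ => coeff_one d r hr hs _
  · intro j _
    refine (hD.mul ?_).intervalIntegrable _ _
    fun_prop

end Pool.Agent.H61TT
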